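import Pool.Agent.H41.MK.Main

/-!
# The integral Fejes Tóth problem for all exponents at least `13/11`, in every dimension
-/

namespace Pool.Agent.Results.MP_6c69a9_co.ExponentThirteenElevenths

open MeasureTheory

/-- For every `d`, every exponent `lam ≥ 13/11` and every Borel probability measure `μ` on the unit
sphere of `ℝ^(d+1)`, the double integral of `θ(x,y)^lam` is at most `(π/2)^lam d/(d+1)`, with
equality exactly when some orthonormal basis `b` has `μ {b i, -b i} = 1/(d+1)` for all `i`. -/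
theorem result (d : ℕ) (lam : ℝ) (hlam : 13 / 11 ≤ lam)
    (μ : Measure (EuclideanSpace ℝ (Fin (d + 1)))) (hμ : IsProbabilityMeasure μ)
    (hs : μ (Metric.sphere (0 : EuclideanSpace ℝ (Fin (d + 1))) 1)ᶜ = 0) :
    ∫ x, ∫ y, Real.arccos |@inner ℝ _ _ x y| ^ lam ∂μ ∂μ ≤
      (Real.pi / 2) ^ lam * ((d : ℝ) / (d + 1)) ∧
    (∫ x, ∫ y, Real.arccos |@inner ℝ _ _ x y| ^ lam ∂μ ∂μ =
        (Real.pi / 2) ^ lam * ((d : ℝ) / (d + 1)) ↔
      ∃ b : OrthonormalBasis (Fin (d + 1)) ℝ (EuclideanSpace ℝ (Fin (d + 1))),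
        ∀ i, μ {b i, -b i} = ((d + 1 : ℕ) : ENNReal)⁻¹) :=
  H41MK.energy_of H41MK.bd d (by linarith) (fun _ h0 h1 => H41MK.rpow_lt hlam h0 h1) μ hμ hs

end Pool.Agent.Results.MP_6c69a9_co.ExponentThirteenElevenths
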