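import Pool.Agent.H41.FT.Fin
import Pool.Agent.H11.FX.Asm
import Pool.Agent.H11.FX.Pw
import Pool.Agent.H11.FX.Goo
import Pool.Agent.H11.FX.LA
import Pool.Agent.H11.FX.LB

/-!
# The integral Fejes Tóth conjecture in the dimensions `2 ≤ d ≤ 26`

Among all Borel probability measures on the unit sphere of `ℝ^(d+1)`, the average acute angle is
largest at the uniform measure on an orthonormal basis.
-/

namespace Pool.Agent.Results.MP_6c69a9_co.FixedDims

open MeasureTheory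

/-- **The integral Fejes Tóth conjecture on `S^d`, `2 ≤ d ≤ 26`**. -/
theorem result (d : ℕ) (hd : 2 ≤ d) (hd' : d ≤ 26) :
    (∀ μ : Measure (EuclideanSpace ℝ (Fin (d + 1))), IsProbabilityMeasure μ →
      μ (Metric.sphere (0 : EuclideanSpace ℝ (Fin (d + 1))) 1)ᶜ = 0 →
      ∫ x, ∫ y, Real.arccos |@inner ℝ _ _ x y| ∂μ ∂μ ≤ Real.pi / 2 * ((d : ℝ) / (d + 1))) ∧
    (∀ b : OrthonormalBasis (Fin (d + 1)) ℝ (EuclideanSpace ℝ (Fin (d + 1))),
      ∫ x, ∫ y, Real.arccos |@inner ℝ _ _ x y|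
        ∂(((d + 1 : ℕ) : ENNReal)⁻¹ • ∑ i, Measure.dirac (b i))
        ∂(((d + 1 : ℕ) : ENNReal)⁻¹ • ∑ i, Measure.dirac (b i)) =
        Real.pi / 2 * ((d : ℝ) / (d + 1))) := by
  have hA : FX.PW FX.XA := by
    rw [← FX.toCrA]; exact FX.pw_of_claims FX.goodA FX.DA.claimsA
  have hB : FX.PW FX.XB := by
    rw [← FX.toCrB]; exact FX.pw_of_claims FX.goodB FX.DB.claimsB
  have h := FX.ft_main H41FT.cert3 hA hB (d + 1) (by omega) (by omega)
  exact ⟨fun μ hμ hS => FX.integral_of_ft (by omega) h μ hμ hS, FX.onb_value⟩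

end Pool.Agent.Results.MP_6c69a9_co.FixedDims
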