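import Pool.Agent.H41.MK.Main
import Pool.Agent.H41.MK.Unc

/-!
# Acute angles and second moments, in every dimension
-/

namespace Pool.Agent.Results.MP_6c69a9_co.SecondMoment

open MeasureTheory

/-- For every `d` and every Borel probability measure `μ` on the unit sphere of `ℝ^(d+1)`:
the double integral of `θ(x,y)` is at most `(π/2) (d/(d+1) + (9/11) (E - 1/(d+1)))`, where `E` is
the double integral of `⟨x,y⟩²`, and at most `(π/2) (1 - 0.941/(d+1))`. -/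
theorem result (d : ℕ)
    (μ : Measure (EuclideanSpace ℝ (Fin (d + 1)))) (hμ : IsProbabilityMeasure μ)
    (hs : μ (Metric.sphere (0 : EuclideanSpace ℝ (Fin (d + 1))) 1)ᶜ = 0) :
    ∫ x, ∫ y, Real.arccos |@inner ℝ _ _ x y| ∂μ ∂μ ≤
      Real.pi / 2 * ((d : ℝ) / (d + 1) +
        9 / 11 * (∫ x, ∫ y, (@inner ℝ _ _ x y : ℝ) ^ 2 ∂μ ∂μ - 1 / ((d : ℝ) + 1))) ∧
    ∫ x, ∫ y, Real.arccos |@inner ℝ _ _ x y| ∂μ ∂μ ≤
      Real.pi / 2 * (1 - 941 / 1000 / ((d : ℝ) + 1)) :=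
  ⟨H41MK.angle_le H41MK.bd d μ hμ hs, H41MK.uncond H41MK.bd d μ hμ hs⟩

end Pool.Agent.Results.MP_6c69a9_co.SecondMoment
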