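import Pool.Agent.H35.FTN.Final

/-!
# The discrete Fejes Tóth conjecture for at most `2(d+1)` points of `S^d`, in every dimension
-/

namespace Pool.Agent.Results.MP_6c69a9_co.TwiceDim

open Finset Real

/-- Let `x_1, …, x_N` be unit vectors of `ℝ^(d+1)` (repetitions allowed) and `θ` the acute angle.
(1) For all weights `0 ≤ m_i ≤ 1`, the sum of `m_i m_j θ(x_i, x_j)` over all ordered pairs is at most
`(π/2) ((∑ m)² - ∑ m² - 2 (∑ m - (d+1)))`.
(2) If `N ≤ 2(d+1)`, then the sum of all `θ(x_i, x_j)` is at most its value at the periodic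
repetition of an orthonormal basis, and the mean of `θ(x_i, x_j)` is at most `(π/2) d/(d+1)`. -/
theorem result (d N : ℕ) (x : Fin N → EuclideanSpace ℝ (Fin (d + 1))) (hx : ∀ i, ‖x i‖ = 1) :
    (∀ m : Fin N → ℝ, (∀ i, 0 ≤ m i) → (∀ i, m i ≤ 1) →
      ∑ i, ∑ j, m i * m j * arccos |inner ℝ (x i) (x j)| ≤
        (π / 2) * ((∑ i, m i) ^ 2 - ∑ i, m i ^ 2 - 2 * (∑ i, m i - (d + 1)))) ∧
    (N ≤ 2 * (d + 1) →
      (∀ b : OrthonormalBasis (Fin (d + 1)) ℝ (EuclideanSpace ℝ (Fin (d + 1))),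
        ∑ i, ∑ j, arccos |inner ℝ (x i) (x j)| ≤
          ∑ i : Fin N, ∑ j : Fin N,
            arccos |inner ℝ (b (Fin.ofNat (d + 1) i)) (b (Fin.ofNat (d + 1) j))|) ∧
      (1 / (N : ℝ) ^ 2) * ∑ i, ∑ j, arccos |inner ℝ (x i) (x j)| ≤ (π / 2) * (d / (d + 1))) := by
  have hfr : (Module.finrank ℝ (EuclideanSpace ℝ (Fin (d + 1))) : ℝ) = (d : ℝ) + 1 := by
    rw [finrank_euclideanSpace_fin]
    push_cast
    ring
  have h1 : ∀ m : Fin N → ℝ, (∀ i, 0 ≤ m i) → (∀ i, m i ≤ 1) →
      ∑ i, ∑ j, m i * m j * arccos |inner ℝ (x i) (x j)| ≤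
        (π / 2) * ((∑ i, m i) ^ 2 - ∑ i, m i ^ 2 - 2 * (∑ i, m i - (d + 1))) := by
    intro m hm0 hm1
    have := Pool.Agent.H35.FTN.weighted x hx m hm0 hm1
    rw [hfr] at this
    exact this
  refine ⟨h1, fun hN => ?_⟩
  have hR : 0 < π / 2 := by positivity
  have hu := h1 (fun _ => 1) (fun _ => zero_le_one) (fun _ => le_rfl)
  simp only [one_mul, Finset.sum_const, Finset.card_univ, Fintype.card_fin, nsmul_eq_mul, mul_one,
    one_pow] at hu
  -- the trivial bound
  have ht : ∑ i, ∑ j, arccos |inner ℝ (x i) (x j)| ≤ (π / 2) * ((N : ℝ) ^ 2 - N) := by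
    have e1 : ∀ i j, arccos |inner ℝ (x i) (x j)| ≤ (π / 2) * (1 - (if i = j then 1 else 0)) := by
      intro i j
      rw [Pool.Agent.H35.FTN.theta_eq x hx]
      apply mul_le_mul_of_nonneg_left _ hR.le
      by_cases h : i = j
      · rw [if_pos h, if_pos h]
        norm_num
      · rw [if_neg h, if_neg h]
        linarith [Pool.Agent.H35.FTN.S0_nonneg x i j]
    have e2 := Finset.sum_le_sum (fun i (_ : i ∈ univ) => Finset.sum_le_sum (fun j (_ : j ∈ univ) => e1 i j))
    refine e2.trans (le_of_eq ?_)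
    simp_rw [← Finset.mul_sum, Finset.sum_sub_distrib]
    congr 1
    simp
    ring
  constructor
  · intro b
    have e3 : ∑ i : Fin N, ∑ j : Fin N,
        arccos |inner ℝ (b (Fin.ofNat (d + 1) i)) (b (Fin.ofNat (d + 1) j))|
        = (π / 2) * ((N : ℝ) ^ 2 - ((∑ i : Fin N, ∑ j : Fin N,
          (if (i : ℕ) % (d + 1) = (j : ℕ) % (d + 1) then 1 else 0 : ℕ) : ℕ) : ℝ)) := by
      have e4 : ∀ i j : Fin N, arccos |inner ℝ (b (Fin.ofNat (d + 1) i)) (b (Fin.ofNat (d + 1) j))|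
          = (π / 2) * (1 - ((if (i : ℕ) % (d + 1) = (j : ℕ) % (d + 1) then 1 else 0 : ℕ) : ℝ)) := by
        intro i j
        rw [Pool.Agent.H35.FTN.orth_theta]
        congr 1
        have hiff : (Fin.ofNat (d + 1) (i : ℕ) = Fin.ofNat (d + 1) (j : ℕ)) ↔
            (i : ℕ) % (d + 1) = (j : ℕ) % (d + 1) := by
          rw [Fin.ext_iff]
          rfl
        by_cases h : (i : ℕ) % (d + 1) = (j : ℕ) % (d + 1)
        · rw [if_pos (hiff.2 h), if_pos h]
          simp
        · rw [if_neg (fun h' => h (hiff.1 h')), if_neg h]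
          simp
      simp_rw [e4, ← Finset.mul_sum, Finset.sum_sub_distrib]
      congr 1
      push_cast
      simp
      ring
    rw [e3]
    have e5 := Pool.Agent.H35.FTN.card_pairs (d + 1) N (Nat.succ_pos d) hN
    generalize (∑ i : Fin N, ∑ j : Fin N,
      (if (i : ℕ) % (d + 1) = (j : ℕ) % (d + 1) then 1 else 0 : ℕ)) = K at e5 ⊢
    rcases le_total N (d + 1) with hle | hle
    · rw [Nat.sub_eq_zero_of_le hle] at e5
      refine ht.trans (mul_le_mul_of_nonneg_left ?_ hR.le)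
      have e6 : (K : ℝ) ≤ (N : ℝ) := by
        exact_mod_cast e5
      linarith
    · refine hu.trans (mul_le_mul_of_nonneg_left ?_ hR.le)
      have e6 : (K : ℝ) ≤ ((N + 2 * (N - (d + 1)) : ℕ) : ℝ) := by
        exact_mod_cast e5
      rw [Nat.cast_add, Nat.cast_mul, Nat.cast_sub hle] at e6
      push_cast at e6
      linarith
  · rcases Nat.eq_zero_or_pos N with h0 | h0
    · subst h0
      simp
      positivity
    · have hNp : (0 : ℝ) < N := by exact_mod_cast h0
      have hd : (0 : ℝ) < (d : ℝ) + 1 := by positivity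
      rw [one_div, inv_mul_le_iff₀ (by positivity)]
      have goal : ∀ B : ℝ, (∑ i, ∑ j, arccos |inner ℝ (x i) (x j)| ≤ (π / 2) * B) →
          B ≤ (N : ℝ) ^ 2 * (d / (d + 1)) →
          ∑ i, ∑ j, arccos |inner ℝ (x i) (x j)| ≤ (N : ℝ) ^ 2 * ((π / 2) * (d / (d + 1))) := by
        intro B h2 h3
        have h4 := mul_le_mul_of_nonneg_left h3 hR.le
        linarith
      rcases le_total N (d + 1) with hle | hle
      · apply goal _ ht
        have hle' : (N : ℝ) ≤ d + 1 := by exact_mod_cast hle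
        rw [mul_div_assoc', le_div_iff₀ hd]
        nlinarith
      · apply goal _ hu
        have hle' : (d : ℝ) + 1 ≤ N := by exact_mod_cast hle
        have hN' : (N : ℝ) ≤ 2 * (d + 1) := by exact_mod_cast hN
        rw [mul_div_assoc', le_div_iff₀ hd]
        nlinarith [mul_nonneg (sub_nonneg.2 hle') (sub_nonneg.2 hN')]

end Pool.Agent.Results.MP_6c69a9_co.TwiceDim
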